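import Pool.Agent.ARC.All

set_option autoImplicit false

/-!
# Approximate elliptic connectedness of smooth fibrations

The elliptic version of the theorem of `SmoothRational.lean`: let `φ : X → Y` be a surjective
holomorphic map which is a submersion (or, more generally, has the rigidity property below), with
rationally chain connected fibres of positive dimension and such that every point of `Y` has
arbitrarily small open neighbourhoods with simply connected preimage. If `Y` is approximately
elliptically connected in the strong sense then so is `X`.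
-/

namespace Pool.Agent.Results.MP_1c7abc_ag.SmoothElliptic

open Pool.Agent.ARC

/-- `f : ℂ → ℙ^a × ℙ^b` is holomorphic: near every point it is given, in homogeneous coordinates, by
two vectors of holomorphic functions. -/
def HolC {a b : ℕ} (f : ℂ → PP a b) : Prop :=
  ∀ z₀ : ℂ, ∃ (N : Set ℂ) (F : ℂ → Vec a) (G : ℂ → Vec b), IsOpen N ∧ z₀ ∈ N ∧
    DifferentiableOn ℂ F N ∧ DifferentiableOn ℂ G N ∧
    ∀ z ∈ N, Is (F z) (f z).1 ∧ Is (G z) (f z).2

/-- Elliptic curves in `ℙ^a × ℙ^b`: images of nonconstant holomorphic maps from a complex torus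
`ℂ / (ℤ + ℤ τ)`. -/
def EllCurve {a b : ℕ} (C : Set (PP a b)) : Prop :=
  ∃ (τ : ℂ) (f : ℂ → PP a b), 0 < τ.im ∧ HolC f ∧ (∀ z, f (z + 1) = f z) ∧
    (∀ z, f (z + τ) = f z) ∧ C = Set.range f ∧ C.Nontrivial

/-- `x` and `y` are joined by a chain of elliptic curves inside `U`. -/
def EllChain {a b : ℕ} (U : Set (PP a b)) (x y : PP a b) : Prop :=
  Relation.ReflTransGen (fun u v => ∃ C, EllCurve C ∧ C ⊆ U ∧ u ∈ C ∧ v ∈ C) x y

/-- Approximate elliptic connectedness in the naive sense: every Euclidean neighbourhood of `X`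
contains a chain of elliptic curves joining any two given points of `X`. -/
def NaiveEll {a b : ℕ} (X : Set (PP a b)) : Prop :=
  ∀ U : Set (PP a b), IsOpenP U → X ⊆ U → ∀ x ∈ X, ∀ y ∈ X, EllChain U x y

/-- Approximate elliptic connectedness in the strong sense: the naive property for every
embedding in a product of two projective spaces. -/
def StrongEll {a b : ℕ} (X : Set (PP a b)) : Prop :=
  ∀ (c d : ℕ) (j : PP a b → PP c d), IsEmb X j → NaiveEll (j '' X)

/-- `φ` is a submersion onto `Y`: through every point of `X` there is a local holomorphic section. -/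
def Submersion {a b c d : ℕ} (X : Set (PP a b)) (Y : Set (PP c d)) (φ : PP a b → PP c d) : Prop :=
  ∀ x ∈ X, ∃ (V : Set (PP c d)) (s : PP c d → PP a b), IsOpenP V ∧ φ x ∈ V ∧ HolOn (Y ∩ V) s ∧
    (∀ y ∈ Y ∩ V, s y ∈ X ∧ φ (s y) = y) ∧ s (φ x) = x

/-- The rigidity property: every holomorphic map from `X` to a product of two projective spaces
which is constant on one fibre of `φ` is the composition of `φ` and a holomorphic map on `Y`. -/
def Rigid {a b c d : ℕ} (X : Set (PP a b)) (Y : Set (PP c d)) (φ : PP a b → PP c d) : Prop :=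
  ∀ (k l : ℕ) (f : PP a b → PP k l), HolOn X f → ∀ x₀ ∈ X,
    (∀ x ∈ X, φ x = φ x₀ → f x = f x₀) →
    ∃ g : PP c d → PP k l, HolOn Y g ∧ ∀ x ∈ X, f x = g (φ x)

/-- Q1, elliptic version, for smooth (and for rigid) fibrations of positive relative dimension: if
`Y` is approximately elliptically connected in the strong sense then so is `X`. -/
theorem result (a b c d : ℕ) (X : Set (PP a b)) (Y : Set (PP c d)) (φ : PP a b → PP c d)
    (hcompact : IsCompact X) (hconn : IsPreconnected X) (hφ : HolOn X φ) (hsurj : φ '' X = Y)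
    (hsmooth : Submersion X Y φ ∨ Rigid X Y φ)
    (hpos : ∀ x ∈ X, ∃ x' ∈ X, x' ≠ x ∧ φ x' = φ x)
    (hfib : ∀ x ∈ X, ∀ x' ∈ X, φ x = φ x' → ChainIn {z | z ∈ X ∧ φ z = φ x} x x')
    (hsc : ∀ y ∈ Y, ∀ N : Set (PP c d), IsOpen N → y ∈ N → ∃ N' ⊆ N, IsOpen N' ∧ y ∈ N' ∧
      SimplyConnectedSpace {x : X // φ x ∈ N'})
    (hY : StrongEll Y) : StrongEll X :=
  a_GEE a b c d X Y φ hcompact hconn hφ hsurj hsmooth hpos hfib hsc hY

end Pool.Agent.Results.MP_1c7abc_ag.SmoothElliptic
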