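import Pool.Agent.ARC.All

set_option autoImplicit false

/-!
# Approximate rational connectedness of smooth fibrations

Let `φ : X → Y` be a surjective holomorphic map which is a submersion (or, more generally, has the
rigidity property below), with rationally chain connected fibres of positive dimension and such that
every point of `Y` has arbitrarily small open neighbourhoods with simply connected preimage. If `Y`
is approximately rationally connected in the strong sense then so is `X`. For a smooth morphism of
complex projective manifolds whose fibres are rationally connected of positive dimension all the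
hypotheses are satisfied (Ehresmann's theorem, and rationally connected manifolds are simply
connected). Paper proof: `Pool/Agent/ARC/Blueprint.md`.
-/

namespace Pool.Agent.Results.MP_1c7abc_ag.SmoothRational

open Pool.Agent.ARC

/-- `φ` is a submersion onto `Y`: through every point of `X` there is a local holomorphic section. -/
def Submersion {a b c d : ℕ} (X : Set (PP a b)) (Y : Set (PP c d)) (φ : PP a b → PP c d) : Prop :=
  ∀ x ∈ X, ∃ (V : Set (PP c d)) (s : PP c d → PP a b), IsOpenP V ∧ φ x ∈ V ∧ HolOn (Y ∩ V) s ∧
    (∀ y ∈ Y ∩ V, s y ∈ X ∧ φ (s y) = y) ∧ s (φ x) = x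

/-- The rigidity property: every holomorphic map from `X` to a product of two projective spaces
which is constant on one fibre of `φ` is the composition of `φ` and a holomorphic map on `Y`. -/
def Rigid {a b c d : ℕ} (X : Set (PP a b)) (Y : Set (PP c d)) (φ : PP a b → PP c d) : Prop :=
  ∀ (k l : ℕ) (f : PP a b → PP k l), HolOn X f → ∀ x₀ ∈ X,
    (∀ x ∈ X, φ x = φ x₀ → f x = f x₀) →
    ∃ g : PP c d → PP k l, HolOn Y g ∧ ∀ x ∈ X, f x = g (φ x)

/-- Q1, rational version, for smooth (and for rigid) fibrations of positive relative dimension: if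
`Y` is approximately rationally connected in the strong sense then so is `X`. -/
theorem result (a b c d : ℕ) (X : Set (PP a b)) (Y : Set (PP c d)) (φ : PP a b → PP c d)
    (hcompact : IsCompact X) (hconn : IsPreconnected X) (hφ : HolOn X φ) (hsurj : φ '' X = Y)
    (hsmooth : Submersion X Y φ ∨ Rigid X Y φ)
    (hpos : ∀ x ∈ X, ∃ x' ∈ X, x' ≠ x ∧ φ x' = φ x)
    (hfib : ∀ x ∈ X, ∀ x' ∈ X, φ x = φ x' → ChainIn {z | z ∈ X ∧ φ z = φ x} x x')
    (hsc : ∀ y ∈ Y, ∀ N : Set (PP c d), IsOpen N → y ∈ N → ∃ N' ⊆ N, IsOpen N' ∧ y ∈ N' ∧
      SimplyConnectedSpace {x : X // φ x ∈ N'})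
    (hY : Strong Y) : Strong X :=
  a_GEN a b c d X Y φ hcompact hconn hφ hsurj hsmooth hpos hfib hsc hY

end Pool.Agent.Results.MP_1c7abc_ag.SmoothRational
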