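import Pool.Agent.ARC.All

set_option autoImplicit false

/-!
# Approximate rational connectedness of fibrations with a section

No smoothness is needed if `φ` has a section, or if `X` contains a strongly approximately
rationally connected subset (embedded by `s : Z → X`) which meets every fibre of `φ`.
-/

namespace Pool.Agent.Results.MP_1c7abc_ag.StrongSection

open Pool.Agent.ARC

/-- Let `φ : X → Y` be any surjective holomorphic map such that two points of the same fibre are
always joined by a chain of rational curves in the fibre. If `X` contains the image of an embedding
`s` of a set `Z` which is approximately rationally connected in the strong sense and this image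
meets every fibre (for example `Z = Y` and `s` a section of `φ`), then `X` is approximately
rationally connected in the strong sense. -/
theorem result (a b c d e k : ℕ) (X : Set (PP a b)) (Y : Set (PP c d)) (Z : Set (PP e k))
    (φ : PP a b → PP c d) (s : PP e k → PP a b) (hφ : HolOn X φ) (hsurj : φ '' X = Y)
    (hfib : ∀ x ∈ X, ∀ x' ∈ X, φ x = φ x' → ChainIn {z | z ∈ X ∧ φ z = φ x} x x')
    (hs : IsEmb Z s) (hsX : s '' Z ⊆ X) (hsY : φ '' (s '' Z) = Y) (hZ : Strong Z) : Strong X :=
  a_FIN a b c d e k X Y Z φ s hφ hsurj hfib hs hsX hsY hZ

end Pool.Agent.Results.MP_1c7abc_ag.StrongSection
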